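import Mathlib

/-!
# Perturbation of infinitesimally flexible configurations
-/

set_option autoImplicit false

namespace Pool.Agent.U34.EQ

open Finset Filter Topology

section

variable {n K k : ℕ} [NeZero n]

/-- the step `j + 1` -/
abbrev st {n : ℕ} {k : ℕ} (j : Fin k) : ZMod n := ((j.val + 1 : ℕ) : ZMod n)

/-- the configurations -/
abbrev Cf (n K : ℕ) : Type := ZMod n → Fin K → ℂ

/-- the squared distances, minus constants -/
noncomputable def G (n K k : ℕ) (p : Cf n K × (Fin k → ℝ)) : ZMod n → Fin k → ℝ :=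
  fun i j => ∑ b, ‖p.1 i b - p.1 (i + st j) b‖ ^ 2 - p.2 j

/-- the differences -/
noncomputable def ell (n K k : ℕ) [NeZero n] (i i' : ZMod n) (b : Fin K) :
    (Cf n K × (Fin k → ℝ)) →L[ℝ] ℂ :=
  (((ContinuousLinearMap.proj (R := ℝ) (φ := fun _ : Fin K => ℂ) b).comp
      (ContinuousLinearMap.proj (R := ℝ) (φ := fun _ : ZMod n => Fin K → ℂ) i)) -
    ((ContinuousLinearMap.proj (R := ℝ) (φ := fun _ : Fin K => ℂ) b).comp
      (ContinuousLinearMap.proj (R := ℝ) (φ := fun _ : ZMod n => Fin K → ℂ) i'))).comp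
    (ContinuousLinearMap.fst ℝ (Cf n K) (Fin k → ℝ))

theorem ell_apply (i i' : ZMod n) (b : Fin K) (p : Cf n K × (Fin k → ℝ)) :
    ell n K k i i' b p = p.1 i b - p.1 i' b := rfl

/-- the derivative of `G` at `γ` -/
noncomputable def L (γ : Cf n K) : (Cf n K × (Fin k → ℝ)) →L[ℝ] (ZMod n → Fin k → ℝ) :=
  ContinuousLinearMap.pi fun i => ContinuousLinearMap.pi fun j =>
    (∑ b, (2 • innerSL ℝ (γ i b - γ (i + st j) b)).comp (ell n K k i (i + st j) b)) -
      (ContinuousLinearMap.proj (R := ℝ) (φ := fun _ : Fin k => ℝ) j).comp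
        (ContinuousLinearMap.snd ℝ (Cf n K) (Fin k → ℝ))

theorem L_apply (γ : Cf n K) (p : Cf n K × (Fin k → ℝ)) (i : ZMod n) (j : Fin k) :
    L γ p i j = ∑ b, 2 * inner ℝ (γ i b - γ (i + st j) b) (p.1 i b - p.1 (i + st j) b) -
      p.2 j := by
  simp only [L, ContinuousLinearMap.pi_apply, sub_apply,
    _root_.sum_apply, ContinuousLinearMap.comp_apply, ell_apply]
  congr 1
  refine Finset.sum_congr rfl fun b _ => ?_
  simp [two_smul, two_mul]
  ring

theorem hasStrict (γ : Cf n K) (c : Fin k → ℝ) :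
    HasStrictFDerivAt (G n K k) (L γ) (γ, c) := by
  rw [hasStrictFDerivAt_pi']
  intro i
  rw [hasStrictFDerivAt_pi']
  intro j
  have h1 : ∀ b : Fin K, HasStrictFDerivAt
      (fun p : Cf n K × (Fin k → ℝ) => ‖p.1 i b - p.1 (i + st j) b‖ ^ 2)
      ((2 • innerSL ℝ (γ i b - γ (i + st j) b)).comp (ell n K k i (i + st j) b)) (γ, c) := by
    intro b
    exact (hasStrictFDerivAt_norm_sq (ell n K k i (i + st j) b (γ, c))).comp (γ, c)
      (ell n K k i (i + st j) b).hasStrictFDerivAt
  have h2 : HasStrictFDerivAt (fun p : Cf n K × (Fin k → ℝ) => p.2 j)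
      ((ContinuousLinearMap.proj (R := ℝ) (φ := fun _ : Fin k => ℝ) j).comp
        (ContinuousLinearMap.snd ℝ (Cf n K) (Fin k → ℝ))) (γ, c) :=
    ((ContinuousLinearMap.proj (R := ℝ) (φ := fun _ : Fin k => ℝ) j).comp
        (ContinuousLinearMap.snd ℝ (Cf n K) (Fin k → ℝ))).hasStrictFDerivAt
  exact (HasStrictFDerivAt.fun_sum fun b _ => h1 b).sub h2

/-- the reindexing -/
theorem reindex (w : ZMod n → Fin k → ℝ) (γ y : Cf n K) :
    ∑ i, ∑ j, (∑ b, inner ℝ (γ i b - γ (i + st j) b) (y i b - y (i + st j) b)) * w i j =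
    ∑ i, ∑ b, inner ℝ (∑ j : Fin k, (w i j • (γ i b - γ (i + st j) b) +
      w (i - st j) j • (γ i b - γ (i - st j) b))) (y i b) := by
  have h1 : ∀ (j : Fin k) (b : Fin K),
      ∑ i, inner ℝ (γ i b - γ (i + st j) b) (y i b - y (i + st j) b) * w i j =
      ∑ i, inner ℝ (w i j • (γ i b - γ (i + st j) b) +
        w (i - st j) j • (γ i b - γ (i - st j) b)) (y i b) := by
    intro j b
    have h2 : ∑ i, inner ℝ (γ i b - γ (i + st j) b) (y (i + st j) b) * w i j =
        - ∑ i, inner ℝ (w (i - st j) j • (γ i b - γ (i - st j) b)) (y i b) := by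
      rw [← Finset.sum_neg_distrib]
      rw [← Equiv.sum_comp (Equiv.addRight (st j))
        (fun i : ZMod n => - inner ℝ (w (i - st j) j • (γ i b - γ (i - st j) b)) (y i b))]
      refine Finset.sum_congr rfl fun i _ => ?_
      simp only [Equiv.coe_addRight, add_sub_cancel_right]
      rw [real_inner_smul_left, ← neg_sub (γ (i + st j) b), inner_neg_left]
      ring
    have h3 : ∀ i, inner ℝ (γ i b - γ (i + st j) b) (y i b - y (i + st j) b) * w i j =
        inner ℝ (w i j • (γ i b - γ (i + st j) b)) (y i b) -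
          inner ℝ (γ i b - γ (i + st j) b) (y (i + st j) b) * w i j := by
      intro i
      rw [inner_sub_right, real_inner_smul_left]
      ring
    simp only [h3, Finset.sum_sub_distrib, h2, inner_add_left, Finset.sum_add_distrib]
    ring
  calc ∑ i, ∑ j, (∑ b, inner ℝ (γ i b - γ (i + st j) b) (y i b - y (i + st j) b)) * w i j
      = ∑ j, ∑ b, ∑ i, inner ℝ (γ i b - γ (i + st j) b) (y i b - y (i + st j) b) * w i j := by
        rw [Finset.sum_comm]
        refine Finset.sum_congr rfl fun j _ => ?_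
        rw [Finset.sum_comm]
        refine Finset.sum_congr rfl fun i _ => ?_
        rw [Finset.sum_mul]
    _ = ∑ j, ∑ b, ∑ i, inner ℝ (w i j • (γ i b - γ (i + st j) b) +
        w (i - st j) j • (γ i b - γ (i - st j) b)) (y i b) :=
        Finset.sum_congr rfl fun j _ => Finset.sum_congr rfl fun b _ => h1 j b
    _ = _ := by
        rw [Finset.sum_comm]
        rw [Finset.sum_congr rfl fun b _ => Finset.sum_comm]
        rw [Finset.sum_comm]
        refine Finset.sum_congr rfl fun i _ => Finset.sum_congr rfl fun b _ => ?_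
        rw [sum_inner]

theorem surj (γ : Cf n K)
    (hγ : ∀ w : ZMod n → Fin k → ℝ, (∀ j, ∑ i, w i j = 0) →
      (∀ i b, ∑ j : Fin k, (w i j • (γ i b - γ (i + st j) b) +
        w (i - st j) j • (γ i b - γ (i - st j) b)) = 0) → w = 0) :
    (L (k := k) γ).range = ⊤ := by
  classical
  rw [LinearMap.range_eq_top]
  have : Function.Surjective (L (k := k) γ).toLinearMap := by
    rw [← LinearMap.dualMap_injective_iff, injective_iff_map_eq_zero]
    intro φ hφ
    let w : ZMod n → Fin k → ℝ := fun i j => φ (Pi.single i (Pi.single j 1))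
    have hφw : ∀ τ : ZMod n → Fin k → ℝ, φ τ = ∑ i, ∑ j, τ i j * w i j := by
      intro τ
      have h1 : τ = ∑ i, ∑ j, τ i j • (Pi.single i (Pi.single j (1 : ℝ)) :
          ZMod n → Fin k → ℝ) := by
        funext i j
        simp only [Finset.sum_apply, Pi.smul_apply, smul_eq_mul]
        rw [Finset.sum_eq_single i, Finset.sum_eq_single j]
        · simp
        · intro j' _ hj'
          simp [Pi.single_apply, hj'.symm]
        · intro h; exact absurd (Finset.mem_univ _) h
        · intro i' _ hi'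
          refine Finset.sum_eq_zero fun j' _ => ?_
          simp [Pi.single_apply, hi'.symm]
        · intro h; exact absurd (Finset.mem_univ _) h
      conv_lhs => rw [h1]
      simp only [map_sum, map_smul, smul_eq_mul]
      rfl
    have hz : ∀ p : Cf n K × (Fin k → ℝ), ∑ i, ∑ j, L γ p i j * w i j = 0 := by
      intro p
      rw [← hφw]
      exact LinearMap.congr_fun hφ p
    have hw : w = 0 := by
      apply hγ w
      · intro j
        have h1 := hz (0, Pi.single j 1)
        simp only [L_apply, Prod.fst_zero, Pi.zero_apply, sub_self, inner_zero_right, mul_zero,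
          Finset.sum_const_zero, zero_sub] at h1
        have h2 : ∀ i, ∑ x, -(Pi.single j (1 : ℝ) : Fin k → ℝ) x * w i x = - w i j := by
          intro i
          rw [Finset.sum_eq_single j]
          · simp
          · intro x _ hx
            simp [Pi.single_apply, hx]
          · intro h; exact absurd (Finset.mem_univ _) h
        simp only [h2, Finset.sum_neg_distrib] at h1
        linarith
      · let V : Cf n K := fun i b => ∑ j : Fin k, (w i j • (γ i b - γ (i + st j) b) +
          w (i - st j) j • (γ i b - γ (i - st j) b))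
        have h1 := hz (V, 0)
        simp only [L_apply, Pi.zero_apply, sub_zero] at h1
        have h2 := reindex w γ V
        have h3 : ∑ i, ∑ j, (∑ b, 2 * inner ℝ (γ i b - γ (i + st j) b)
            (V i b - V (i + st j) b)) * w i j = 2 * ∑ i, ∑ j, (∑ b,
            inner ℝ (γ i b - γ (i + st j) b) (V i b - V (i + st j) b)) * w i j := by
          rw [Finset.mul_sum]
          refine Finset.sum_congr rfl fun i _ => ?_
          rw [Finset.mul_sum]
          refine Finset.sum_congr rfl fun j _ => ?_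
          rw [← Finset.mul_sum]; ring
        rw [h3, h2] at h1
        have h4 : ∑ i, ∑ b, inner ℝ (V i b) (V i b) = (0 : ℝ) := by
          have : (2 : ℝ) ≠ 0 := two_ne_zero
          exact (mul_eq_zero.1 h1).resolve_left this
        intro i b
        have h5 : ∀ i ∈ Finset.univ, (0 : ℝ) ≤ ∑ b, inner ℝ (V i b) (V i b) :=
          fun i _ => Finset.sum_nonneg fun b _ => real_inner_self_nonneg
        have h6 := (Finset.sum_eq_zero_iff_of_nonneg h5).1 h4 i (Finset.mem_univ i)
        have h7 := (Finset.sum_eq_zero_iff_of_nonneg (fun b _ => real_inner_self_nonneg)).1 h6 b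
          (Finset.mem_univ b)
        exact inner_self_eq_zero.1 h7
    apply LinearMap.ext
    intro τ
    rw [hφw, hw]
    simp
  exact this

/-- All small perturbations of the squared distances of `γ` are realised near `γ`, up to
constants. -/
theorem perturb (γ : Cf n K) (c₀ : Fin k → ℝ)
    (hc : ∀ i (j : Fin k), ∑ b, ‖γ i b - γ (i + st j) b‖ ^ 2 = c₀ j)
    (hγ : ∀ w : ZMod n → Fin k → ℝ, (∀ j, ∑ i, w i j = 0) →
      (∀ i b, ∑ j : Fin k, (w i j • (γ i b - γ (i + st j) b) +
        w (i - st j) j • (γ i b - γ (i - st j) b)) = 0) → w = 0)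
    (U : Set (Cf n K)) (hU : U ∈ 𝓝 γ) :
    ∀ᶠ τ : ZMod n → Fin k → ℝ in 𝓝 0, ∃ y ∈ U, ∃ c : Fin k → ℝ,
      ∀ i (j : Fin k), ∑ b, ‖y i b - y (i + st j) b‖ ^ 2 - c j = τ i j := by
  have h1 := (hasStrict γ c₀).map_nhds_eq_of_surj (surj γ hγ)
  have h2 : G n K k (γ, c₀) = 0 := by
    funext i j
    simp only [G, Pi.zero_apply]
    rw [hc, sub_self]
  rw [h2] at h1
  have h3 : {τ : ZMod n → Fin k → ℝ | ∃ y ∈ U, ∃ c : Fin k → ℝ,
      ∀ i (j : Fin k), ∑ b, ‖y i b - y (i + st j) b‖ ^ 2 - c j = τ i j} ∈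
      Filter.map (G n K k) (𝓝 (γ, c₀)) := by
    rw [Filter.mem_map]
    have h4 : U ×ˢ (Set.univ : Set (Fin k → ℝ)) ∈ 𝓝 (γ, c₀) :=
      prod_mem_nhds hU Filter.univ_mem
    filter_upwards [h4] with p hp
    exact ⟨p.1, hp.1, p.2, fun i j => rfl⟩
  rw [h1] at h3
  exact h3

end

end Pool.Agent.U34.EQ
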