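import Pool.Agent.U34.EQ.Simplex
import Pool.Agent.Results.MP_fb0157_co.ThreeEquilateralNineGon

/-!
# `k`-equilateral polygons with vertices in a regular simplex
-/

set_option autoImplicit false

namespace Pool.Agent.U34.EQ

open Pool.Agent.Results.MP_fb0157_co.ThreeEquilateralNineGon

/-- For all `k ≥ 2` and `n ≥ 2 k + 2` there is a `k`-equilateral `n`-gon spanning the Euclidean
space of dimension `2 k - 1`: its vertices are those of a regular simplex. -/
theorem exists_simplicial {k n : ℕ} (hk : 2 ≤ k) (hn : 2 * k + 1 < n) :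
    ∃ x : ZMod n → EuclideanSpace ℝ (Fin (2 * k - 1)), IsKEquilateral k x ∧ Spans x := by
  obtain ⟨d, hd⟩ : ∃ d, d + 1 = 2 * k := ⟨2 * k - 1, by omega⟩
  have hd' : 2 * k - 1 = d := by omega
  rw [hd']
  have : NeZero n := ⟨by omega⟩
  let q := n / (k + 1)
  have hq2 : 2 ≤ q := (Nat.le_div_iff_mul_le (by omega)).2 (by omega)
  have hq0 : 0 < q := by omega
  have hqn : q * (k + 1) ≤ n := Nat.div_mul_le_self _ _
  have hqn2 : n < q * (k + 1) + (k + 1) := by
    have := Nat.lt_div_mul_add (a := n) (b := k + 1) (by omega)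
    simpa [q] using this
  have hnq : n ≤ 2 * k * q := by
    have h1 : k ≤ q * (k - 1) := by
      calc k ≤ 2 * (k - 1) := by omega
        _ ≤ q * (k - 1) := by gcongr
    obtain ⟨l, rfl⟩ : ∃ l, k = l + 1 := ⟨k - 1, by omega⟩
    simp only [Nat.add_sub_cancel] at h1
    nlinarith
  let f0 : ZMod n → ℕ := fun i => (i.val * q % n) / q
  have hf0 : ∀ i, f0 i < d + 1 := by
    intro i
    rw [hd]
    have h1 : i.val * q % n < n := Nat.mod_lt _ (by omega)
    exact Nat.div_lt_of_lt_mul (lt_of_lt_of_le h1 (by rw [mul_comm q]; exact hnq))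
  have hf1 : ∀ (j : ℕ), 1 ≤ j → j ≤ k → ∀ i : ZMod n, f0 i ≠ f0 (i + (j : ZMod n)) := by
    intro j hj hjk i
    have h1 : (i + (j : ZMod n)).val * q % n = (i.val + j) * q % n := by
      rw [ZMod.val_add, ZMod.val_natCast]
      rw [Nat.add_mod_mod, Nat.mod_mul_mod]
    simp only [f0, h1]
    exact color_ne hq0 hqn hj hjk
  obtain ⟨g, hg1, hg2⟩ := refine_surj (α := ZMod n) (m := d + 1) (fun i => ⟨f0 i, hf0 i⟩)
    (by rw [ZMod.card]; omega)
  obtain ⟨v, hv1, hv2⟩ := exists_simplex d
  refine ⟨fun i => v (g i), ⟨fun _ => √2, fun j hj hjk i => ?_⟩, ?_⟩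
  · apply hv1
    intro h
    have := hg2 _ _ h
    simp only [Fin.mk.injEq] at this
    exact hf1 j hj hjk i this
  · unfold Spans
    have : Set.range (fun i => v (g i)) = Set.range v := hg1.range_comp v
    rw [this]
    exact hv2

end Pool.Agent.U34.EQ
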