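import Mathlib

/-!
# Stresses of circulant frameworks: the Fourier transform
-/

set_option autoImplicit false

namespace Pool.Agent.U34.EQ

open Finset ZMod Polynomial
open scoped ZMod

/-- the additive character `x ↦ exp (2 π i x / n)` of `ℤ / n` -/
noncomputable abbrev ze {n : ℕ} [NeZero n] (x : ZMod n) : ℂ := stdAddChar x

theorem ze_sum {n : ℕ} [NeZero n] (c : ZMod n) :
    ∑ i : ZMod n, ze (i * c) = if c = 0 then (n : ℂ) else 0 := by
  have := AddChar.sum_mulShift (R := ZMod n) c (isPrimitive_stdAddChar n)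
  rw [this]
  split_ifs <;> simp [ZMod.card]

/-- the polynomial with the roots `ze c` -/
noncomputable def rpol (k : ℕ) (W : Fin k → ℂ) (q : ℂ) : ℂ[X] :=
  ∑ j : Fin k, C (W j) * ((1 + C q ^ (j.val + 1)) * X ^ k - X ^ (k + (j.val + 1)) -
    C q ^ (j.val + 1) * X ^ (k - (j.val + 1)))

theorem rpol_natDegree (k : ℕ) (W : Fin k → ℂ) (q : ℂ) : (rpol k W q).natDegree ≤ 2 * k := by
  unfold rpol
  refine natDegree_sum_le_of_forall_le _ _ fun j _ => ?_
  refine (natDegree_C_mul_le _ _).trans ?_
  refine (natDegree_sub_le _ _).trans (max_le ((natDegree_sub_le _ _).trans (max_le ?_ ?_)) ?_)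
  · have : (1 + C q ^ (j.val + 1) : ℂ[X]) = C (1 + q ^ (j.val + 1)) := by simp
    rw [this]
    exact (natDegree_C_mul_X_pow_le _ _).trans (by omega)
  · rw [natDegree_X_pow]
    have := j.isLt
    omega
  · rw [← C_pow]
    exact (natDegree_C_mul_X_pow_le _ _).trans (by omega)

theorem rpol_coeff (k : ℕ) (W : Fin k → ℂ) (q : ℂ) (j : Fin k) :
    (rpol k W q).coeff (k + (j.val + 1)) = - W j := by
  unfold rpol
  rw [finsetSum_coeff, Finset.sum_eq_single j]
  · have h1 : (1 + C q ^ (j.val + 1) : ℂ[X]) = C (1 + q ^ (j.val + 1)) := by simp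
    rw [h1, ← C_pow, coeff_C_mul, coeff_sub, coeff_sub, coeff_C_mul_X_pow, coeff_X_pow,
      coeff_C_mul_X_pow]
    rw [if_neg (by omega), if_pos rfl, if_neg (by omega)]
    ring
  · intro l _ hl
    have hl' : l.val ≠ j.val := fun h => hl (Fin.ext h)
    have h1 : (1 + C q ^ (l.val + 1) : ℂ[X]) = C (1 + q ^ (l.val + 1)) := by simp
    rw [h1, ← C_pow, coeff_C_mul, coeff_sub, coeff_sub, coeff_C_mul_X_pow, coeff_X_pow,
      coeff_C_mul_X_pow]
    rw [if_neg (by omega), if_neg (by omega), if_neg (by omega)]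
    ring
  · intro h; exact absurd (Finset.mem_univ _) h

theorem rpol_eval (k : ℕ) (W : Fin k → ℂ) (q z : ℂ) (hz : z ≠ 0) :
    (rpol k W q).eval z = z ^ k * ∑ j : Fin k, W j *
      ((1 - z ^ (j.val + 1)) + q ^ (j.val + 1) * (1 - z⁻¹ ^ (j.val + 1))) := by
  unfold rpol
  rw [eval_finsetSum, Finset.mul_sum]
  refine Finset.sum_congr rfl fun j _ => ?_
  have h1 : z ^ (k - (j.val + 1)) = z ^ k * z⁻¹ ^ (j.val + 1) := by
    have := j.isLt
    rw [pow_sub₀ z hz (by omega), inv_pow]
  simp only [eval_mul, eval_C, eval_sub, eval_add, eval_one, eval_pow, eval_X, h1, pow_add]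
  ring

/-- The equilibrium stresses of the configuration with frequencies `B` on the circulant graph with
the steps `1, …, k` are zero, up to the cyclically symmetric ones, if `B ∪ (B - m)` has more than
`2 k` elements for all `m ≠ 0`. -/
theorem stress_zero {n k : ℕ} [NeZero n] (B : Finset (ZMod n)) (hB : ∀ c ∈ B, -c ∈ B)
    (hcard : ∀ m : ZMod n, m ≠ 0 → 2 * k < (B ∪ B.image fun c => c - m).card)
    (w : ZMod n → Fin k → ℂ) (hsum : ∀ j, ∑ i, w i j = 0)
    (hw : ∀ c ∈ B, ∀ i, ∑ j : Fin k, (w i j * (1 - ze (c * ((j.val + 1 : ℕ) : ZMod n))) +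
      w (i - ((j.val + 1 : ℕ) : ZMod n)) j * (1 - ze (-(c * ((j.val + 1 : ℕ) : ZMod n))))) = 0) :
    w = 0 := by
  classical
  -- the Fourier transform
  let F : Fin k → ZMod n → ℂ := fun j m => ∑ i, w i j * ze (-(i * m))
  have hshift : ∀ (j : Fin k) (s m : ZMod n),
      ∑ i, w (i - s) j * ze (-(i * m)) = ze (-(s * m)) * F j m := by
    intro j s m
    simp only [F, Finset.mul_sum]
    rw [← Equiv.sum_comp (Equiv.addRight s)]
    refine Finset.sum_congr rfl fun i _ => ?_
    simp only [Equiv.coe_addRight, add_sub_cancel_right]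
    have : ze (-((i + s) * m)) = ze (-(s * m)) * ze (-(i * m)) := by
      rw [ze, ze, ze, ← AddChar.map_add_eq_mul]; congr 1; ring
    rw [this]; ring
  have hF0 : ∀ m : ZMod n, ∀ c ∈ B, ∑ j : Fin k, F j m *
      ((1 - ze c ^ (j.val + 1)) + ze (-m) ^ (j.val + 1) * (1 - (ze c)⁻¹ ^ (j.val + 1))) = 0 := by
    intro m c hc
    have h1 : ∑ i, (∑ j : Fin k, (w i j * (1 - ze (c * ((j.val + 1 : ℕ) : ZMod n))) +
      w (i - ((j.val + 1 : ℕ) : ZMod n)) j * (1 - ze (-(c * ((j.val + 1 : ℕ) : ZMod n)))))) *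
        ze (-(i * m)) = 0 := by
      refine Finset.sum_eq_zero fun i _ => ?_
      rw [hw c hc i, zero_mul]
    rw [← h1]
    simp only [Finset.sum_mul]
    rw [Finset.sum_comm]
    refine Finset.sum_congr rfl fun j _ => ?_
    have e1 : ze (c * ((j.val + 1 : ℕ) : ZMod n)) = ze c ^ (j.val + 1) := by
      rw [ze, ze, ← AddChar.map_nsmul_eq_pow]; congr 1; rw [nsmul_eq_mul, mul_comm]
    have e2 : ze (-(c * ((j.val + 1 : ℕ) : ZMod n))) = (ze c)⁻¹ ^ (j.val + 1) := by
      rw [inv_pow, ← e1]
      exact AddChar.map_neg_eq_inv _ _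
    have e3 : ze (-((((j.val + 1 : ℕ) : ZMod n)) * m)) = ze (-m) ^ (j.val + 1) := by
      rw [ze, ze, ← AddChar.map_nsmul_eq_pow]; congr 1; rw [nsmul_eq_mul]; ring
    have h2 := hshift j ((j.val + 1 : ℕ) : ZMod n) m
    have h3 : ∑ i, (w i j * (1 - ze (c * ((j.val + 1 : ℕ) : ZMod n))) +
      w (i - ((j.val + 1 : ℕ) : ZMod n)) j * (1 - ze (-(c * ((j.val + 1 : ℕ) : ZMod n))))) *
        ze (-(i * m)) = (1 - ze (c * ((j.val + 1 : ℕ) : ZMod n))) * F j m +
        (1 - ze (-(c * ((j.val + 1 : ℕ) : ZMod n)))) *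
          ∑ i, w (i - ((j.val + 1 : ℕ) : ZMod n)) j * ze (-(i * m)) := by
      simp only [F]
      rw [Finset.mul_sum, Finset.mul_sum, ← Finset.sum_add_distrib]
      refine Finset.sum_congr rfl fun i _ => ?_
      ring
    rw [h3, h2, e1, e2, e3]
    ring
  have hze : ∀ x : ZMod n, ze x ≠ 0 := fun x => by
    have h1 : ze x * ze (-x) = 1 := by
      rw [ze, ze, ← AddChar.map_add_eq_mul, add_neg_cancel, AddChar.map_zero_eq_one]
    exact left_ne_zero_of_mul_eq_one h1
  have hF : ∀ (j : Fin k) (m : ZMod n), F j m = 0 := by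
    intro j m
    by_cases hm : m = 0
    · subst hm
      simp only [F, mul_zero, neg_zero]
      have : ze (0 : ZMod n) = 1 := AddChar.map_zero_eq_one _
      rw [this]
      simpa using hsum j
    · have hR : rpol k (fun j => F j m) (ze (-m)) = 0 := by
        apply eq_zero_of_natDegree_lt_card_of_eval_eq_zero' _
          ((B ∪ B.image fun c => c - m).image fun c => ze c)
        · intro z hz
          rw [Finset.mem_image] at hz
          obtain ⟨c, hc, rfl⟩ := hz
          rw [rpol_eval _ _ _ _ (hze c)]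
          rcases Finset.mem_union.1 hc with hc | hc
          · rw [hF0 m c hc, mul_zero]
          · obtain ⟨d, hd, rfl⟩ := Finset.mem_image.1 hc
            have h4 := hF0 m (-d) (hB d hd)
            have e4 : ze (d - m) = ze (-m) * (ze (-d))⁻¹ := by
              rw [ze, ze, ze, ← AddChar.map_neg_eq_inv, ← AddChar.map_add_eq_mul]
              congr 1; ring
            have h5 : ∀ j : Fin k, F j m * ((1 - ze (d - m) ^ (j.val + 1)) +
                ze (-m) ^ (j.val + 1) * (1 - (ze (d - m))⁻¹ ^ (j.val + 1))) =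
                F j m * ((1 - ze (-d) ^ (j.val + 1)) +
                ze (-m) ^ (j.val + 1) * (1 - (ze (-d))⁻¹ ^ (j.val + 1))) := by
              intro j
              rw [e4]
              have h6 := hze (-m)
              have h7 := hze (-d)
              congr 1
              rw [mul_inv, inv_inv, mul_pow, mul_pow]
              have h8 : ze (-m) ^ (j.val + 1) * (ze (-m))⁻¹ ^ (j.val + 1) = 1 := by
                rw [← mul_pow, mul_inv_cancel₀ h6, one_pow]
              linear_combination (-(ze (-d)) ^ (j.val + 1)) * h8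
            rw [Finset.sum_congr rfl fun j _ => h5 j, h4, mul_zero]
        · rw [Finset.card_image_of_injective _ injective_stdAddChar]
          exact lt_of_le_of_lt (rpol_natDegree _ _ _) (hcard m hm)
      have := rpol_coeff k (fun j => F j m) (ze (-m)) j
      rw [hR, coeff_zero] at this
      simpa using this.symm
  -- inversion
  funext i j
  have h1 : (fun i => w i j) = 0 := by
    have : 𝓕 (fun i => w i j) = 0 := by
      funext m
      rw [dft_apply]
      have := hF j m
      simp only [F] at this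
      rw [Pi.zero_apply, ← this]
      refine Finset.sum_congr rfl fun i _ => ?_
      rw [smul_eq_mul, mul_comm]
    exact (map_eq_zero_iff _ (LinearEquiv.injective (ZMod.dft (N := n) (E := ℂ)))).1 this
  exact congrFun h1 i

end Pool.Agent.U34.EQ
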