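import Pool.Agent.U34.EQ.Fourier

/-!
# The set of frequencies, and the independence of characters
-/

set_option autoImplicit false

namespace Pool.Agent.U34.EQ

open Finset ZMod

section freq

variable (t K : ℕ)

/-- the set of frequencies `{0} ∪ [t + 1, t + 2 K]` modulo `n = 2 t + 2 K + 1` -/
noncomputable def fset (n : ℕ) : Finset (ZMod n) :=
  (insert 0 (Finset.Icc (t + 1) (t + 2 * K))).image (fun a : ℕ => (a : ZMod n))

/-- the representatives -/
def isB (a : ℕ) : Prop := a = 0 ∨ (t + 1 ≤ a ∧ a ≤ t + 2 * K)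

variable {t K}

theorem mem_fset {n : ℕ} (hn : n = 2 * t + 2 * K + 1) {a : ℕ} (ha : a < n) :
    (a : ZMod n) ∈ fset t K n ↔ isB t K a := by
  unfold fset isB
  rw [Finset.mem_image]
  constructor
  · rintro ⟨b, hb, hab⟩
    rw [Finset.mem_insert, Finset.mem_Icc] at hb
    have hb' : b < n := by omega
    have : b = a := by
      have := (ZMod.natCast_eq_natCast_iff' b a n).1 hab
      rwa [Nat.mod_eq_of_lt hb', Nat.mod_eq_of_lt ha] at this
    subst this
    exact hb
  · intro h
    exact ⟨a, by rw [Finset.mem_insert, Finset.mem_Icc]; exact h, rfl⟩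

theorem card_fset {n : ℕ} (hn : n = 2 * t + 2 * K + 1) : (fset t K n).card = 2 * K + 1 := by
  unfold fset
  rw [Finset.card_image_of_injOn]
  · rw [Finset.card_insert_of_notMem (by simp), Nat.card_Icc]
    omega
  · intro a ha b hb hab
    simp only [Finset.coe_insert, Finset.coe_Icc, Set.mem_insert_iff, Set.mem_Icc] at ha hb
    have := (ZMod.natCast_eq_natCast_iff' a b n).1 hab
    rwa [Nat.mod_eq_of_lt (by omega), Nat.mod_eq_of_lt (by omega)] at this

theorem two_exits {n : ℕ} (hn : n = 2 * t + 2 * K + 1) (ht : 2 ≤ t) (hK : 2 ≤ K) {v : ℕ}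
    (hv0 : 0 < v) (hv : v < n) :
    ∃ a a' c c' : ℕ, a < n ∧ a' < n ∧ a ≠ a' ∧ ¬ isB t K a ∧ ¬ isB t K a' ∧ c < n ∧ c' < n ∧
      isB t K c ∧ isB t K c' ∧ (a + v = c ∨ a + v = c + n) ∧ (a' + v = c' ∨ a' + v = c' + n) := by
  unfold isB
  by_cases h1 : v ≤ t
  · exact ⟨n - v, t + 1 - v, 0, t + 1, by omega, by omega, by omega, by omega, by omega, by omega,
      by omega, by omega, by omega, by omega, by omega⟩
  by_cases h2 : t + 2 * K + 1 ≤ v
  · exact ⟨n - v, t + 2 * K + n - v, 0, t + 2 * K, by omega, by omega, by omega, by omega,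
      by omega, by omega, by omega, by omega, by omega, by omega, by omega⟩
  by_cases h3 : v = t + 1
  · exact ⟨1, 2, t + 2, t + 3, by omega, by omega, by omega, by omega, by omega, by omega,
      by omega, by omega, by omega, by omega, by omega⟩
  by_cases h4 : v = t + 2 * K
  · exact ⟨n - 1, n - 2, t + 2 * K - 1, t + 2 * K - 2, by omega, by omega, by omega, by omega,
      by omega, by omega, by omega, by omega, by omega, by omega, by omega⟩
  · exact ⟨1, n - 1, v + 1, v - 1, by omega, by omega, by omega, by omega, by omega, by omega,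
      by omega, by omega, by omega, by omega, by omega⟩

theorem card_union {n : ℕ} [NeZero n] (hn : n = 2 * t + 2 * K + 1) (ht : 2 ≤ t) (hK : 2 ≤ K)
    (m : ZMod n) (hm : m ≠ 0) :
    2 * (K + 1) < (fset t K n ∪ (fset t K n).image fun c => c - m).card := by
  have hv0 : 0 < m.val := Nat.pos_of_ne_zero fun h => hm ((ZMod.val_eq_zero m).1 h)
  obtain ⟨a, a', c, c', ha, ha', haa, hBa, hBa', hc, hc', hBc, hBc', e, e'⟩ :=
    two_exits hn ht hK hv0 (ZMod.val_lt m)
  have key : ∀ a c : ℕ, a < n → c < n → ¬ isB t K a → isB t K c →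
      (a + m.val = c ∨ a + m.val = c + n) →
      (a : ZMod n) ∉ fset t K n ∧ (a : ZMod n) ∈ (fset t K n).image fun c => c - m := by
    intro a c ha hc h1 h2 h3
    refine ⟨fun h => h1 ((mem_fset hn ha).1 h), Finset.mem_image.2 ⟨(c : ZMod n),
      (mem_fset hn hc).2 h2, ?_⟩⟩
    have hmv : ((m.val : ℕ) : ZMod n) = m := ZMod.natCast_zmod_val m
    have h4 : (a : ZMod n) + m = (c : ZMod n) := by
      rcases h3 with h3 | h3
      · rw [← hmv, ← h3]; push_cast; ring
      · have : ((a + m.val : ℕ) : ZMod n) = ((c + n : ℕ) : ZMod n) := by rw [h3]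
        push_cast at this
        rw [ZMod.natCast_self, add_zero, ZMod.natCast_zmod_val] at this
        exact this
    rw [← h4]; ring
  obtain ⟨k1, k2⟩ := key a c ha hc hBa hBc e
  obtain ⟨k3, k4⟩ := key a' c' ha' hc' hBa' hBc' e'
  have hne : (a : ZMod n) ≠ (a' : ZMod n) := by
    intro h
    have := (ZMod.natCast_eq_natCast_iff' a a' n).1 h
    rw [Nat.mod_eq_of_lt ha, Nat.mod_eq_of_lt ha'] at this
    exact haa this
  have hsub : insert (a : ZMod n) (insert (a' : ZMod n) (fset t K n)) ⊆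
      fset t K n ∪ (fset t K n).image fun c => c - m := by
    intro x hx
    rw [Finset.mem_insert, Finset.mem_insert] at hx
    rw [Finset.mem_union]
    rcases hx with rfl | rfl | hx
    · exact Or.inr k2
    · exact Or.inr k4
    · exact Or.inl hx
  have h5 := Finset.card_le_card hsub
  rw [Finset.card_insert_of_notMem, Finset.card_insert_of_notMem k3, card_fset hn] at h5
  · omega
  · rw [Finset.mem_insert]
    rintro (h | h)
    · exact hne h
    · exact k1 h

/-- the frequencies of the coordinates -/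
def freq (t : ℕ) {K : ℕ} (n : ℕ) (b : Fin K) : ZMod n := ((t + 1 + b.val : ℕ) : ZMod n)

theorem fset_cases {n : ℕ} (hn : n = 2 * t + 2 * K + 1) (c : ZMod n) (hc : c ∈ fset t K n) :
    c = 0 ∨ ∃ b : Fin K, c = freq t n b ∨ c = - freq t n b := by
  unfold fset at hc
  obtain ⟨a, ha, rfl⟩ := Finset.mem_image.1 hc
  rw [Finset.mem_insert, Finset.mem_Icc] at ha
  rcases ha with rfl | ⟨h1, h2⟩
  · exact Or.inl (by simp)
  · right
    by_cases h3 : a ≤ t + K
    · refine ⟨⟨a - t - 1, by omega⟩, Or.inl ?_⟩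
      unfold freq
      congr 1
      simp only
      omega
    · refine ⟨⟨t + 2 * K - a, by omega⟩, Or.inr ?_⟩
      unfold freq
      rw [eq_neg_iff_add_eq_zero]
      have h4 : a + (t + 1 + (t + 2 * K - a)) = n := by omega
      have : ((a + (t + 1 + (t + 2 * K - a)) : ℕ) : ZMod n) = 0 := by
        rw [h4, ZMod.natCast_self]
      rw [Nat.cast_add] at this
      exact this

theorem neg_mem_fset {n : ℕ} (hn : n = 2 * t + 2 * K + 1) (c : ZMod n) (hc : c ∈ fset t K n) :
    -c ∈ fset t K n := by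
  unfold fset at hc
  obtain ⟨a, ha, rfl⟩ := Finset.mem_image.1 hc
  rw [Finset.mem_insert, Finset.mem_Icc] at ha
  rcases ha with rfl | ⟨h1, h2⟩
  · have : -((0 : ℕ) : ZMod n) = ((0 : ℕ) : ZMod n) := by simp
    rw [this, mem_fset hn (by omega)]
    exact Or.inl rfl
  · have : -(a : ZMod n) = ((n - a : ℕ) : ZMod n) := by
      rw [neg_eq_iff_add_eq_zero]
      have h4 : a + (n - a) = n := by omega
      have h5 : ((a + (n - a) : ℕ) : ZMod n) = 0 := by rw [h4, ZMod.natCast_self]
      rw [Nat.cast_add] at h5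
      exact h5
    rw [this, mem_fset hn (by omega)]
    exact Or.inr ⟨by omega, by omega⟩

end freq

/-- independence of the real and imaginary parts of characters -/
theorem indep {n K : ℕ} [NeZero n] (a : Fin K → ZMod n) (e : ZMod n) (ha0 : ∀ b, a b ≠ 0)
    (hinj : Function.Injective a) (hneg : ∀ b b', a b ≠ - a b') (he0 : e ≠ 0)
    (hea : ∀ b, a b ≠ e) (hea' : ∀ b, a b ≠ -e) (α ε : ℝ) (β δ : Fin K → ℝ)
    (h : ∀ i : ZMod n, α + ∑ b, (β b * (ze (i * a b)).re + δ b * (ze (i * a b)).im) +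
      ε * (ze (i * e)).re = 0) : α = 0 ∧ (∀ b, β b = 0) ∧ (∀ b, δ b = 0) ∧ ε = 0 := by
  classical
  have hn : (n : ℂ) ≠ 0 := Nat.cast_ne_zero.2 (NeZero.ne n)
  let S : ZMod n → ℂ := fun d => ∑ i : ZMod n, ze (i * d)
  have hS : ∀ d, S d = if d = 0 then (n : ℂ) else 0 := ze_sum
  have hS0 : S 0 = n := by rw [hS, if_pos rfl]
  have hS1 : ∀ d, d ≠ 0 → S d = 0 := fun d hd => by rw [hS, if_neg hd]
  have hconj : ∀ x : ZMod n, (starRingEnd ℂ) (ze x) = ze (-x) := by
    intro x
    rw [ze, ze, ← AddChar.map_neg_eq_conj]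
  have hre : ∀ x : ZMod n, ((ze x).re : ℂ) = (ze x + ze (-x)) / 2 := by
    intro x; rw [← hconj, Complex.re_eq_add_conj]
  have him : ∀ x : ZMod n, ((ze x).im : ℂ) = (ze x - ze (-x)) / (2 * Complex.I) := by
    intro x; rw [← hconj, Complex.im_eq_sub_conj]
  have hmul : ∀ i x c : ZMod n, ze (i * x) * ze (-(i * c)) = ze (i * (x - c)) := by
    intro i x c
    rw [ze, ze, ze, ← AddChar.map_add_eq_mul]; congr 1; ring
  -- the Fourier coefficients
  have hR : ∀ x c : ZMod n, ∑ i : ZMod n, ((ze (i * x)).re : ℂ) * ze (-(i * c)) =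
      (S (x - c) + S (-x - c)) / 2 := by
    intro x c
    simp only [S, ← Finset.sum_add_distrib, Finset.sum_div]
    refine Finset.sum_congr rfl fun i _ => ?_
    rw [hre, ← mul_neg, div_mul_eq_mul_div, add_mul, hmul, hmul]
  have hI : ∀ x c : ZMod n, ∑ i : ZMod n, ((ze (i * x)).im : ℂ) * ze (-(i * c)) =
      (S (x - c) - S (-x - c)) / (2 * Complex.I) := by
    intro x c
    simp only [S, ← Finset.sum_sub_distrib, Finset.sum_div]
    refine Finset.sum_congr rfl fun i _ => ?_
    rw [him, ← mul_neg, div_mul_eq_mul_div, sub_mul, hmul, hmul]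
  have h1S : ∀ c : ZMod n, ∑ i : ZMod n, ze (-(i * c)) = S (-c) := by
    intro c
    exact Finset.sum_congr rfl fun i _ => by rw [mul_neg]
  have key : ∀ c : ZMod n, (α : ℂ) * S (-c) + ∑ b, ((β b : ℂ) * ((S (a b - c) + S (-a b - c)) / 2) +
      (δ b : ℂ) * ((S (a b - c) - S (-a b - c)) / (2 * Complex.I))) +
      (ε : ℂ) * ((S (e - c) + S (-e - c)) / 2) = 0 := by
    intro c
    have h0 : ∑ i : ZMod n, ((α : ℂ) + ∑ b, ((β b : ℂ) * ((ze (i * a b)).re : ℂ) +
        (δ b : ℂ) * ((ze (i * a b)).im : ℂ)) + (ε : ℂ) * ((ze (i * e)).re : ℂ)) *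
        ze (-(i * c)) = 0 := by
      refine Finset.sum_eq_zero fun i _ => ?_
      have := congrArg (fun r : ℝ => (r : ℂ)) (h i)
      simp only [Complex.ofReal_add, Complex.ofReal_sum, Complex.ofReal_mul,
        Complex.ofReal_zero] at this
      rw [this, zero_mul]
    rw [← h0, ← h1S, ← hR]
    simp only [← hR, ← hI, add_mul, Finset.sum_mul, Finset.sum_add_distrib, Finset.mul_sum]
    congr 1
    · congr 1
      congr 1
      · rw [Finset.sum_comm]
        exact Finset.sum_congr rfl fun i _ => Finset.sum_congr rfl fun b _ => by ring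
      · rw [Finset.sum_comm]
        exact Finset.sum_congr rfl fun i _ => Finset.sum_congr rfl fun b _ => by ring
    · exact Finset.sum_congr rfl fun i _ => by ring
  have hβδ : ∀ b, β b = 0 ∧ δ b = 0 := by
    intro b
    have h1 := key (a b)
    rw [hS1 (-a b) (neg_ne_zero.2 (ha0 b)), mul_zero, zero_add,
      hS1 (e - a b) (sub_ne_zero.2 (hea b).symm), hS1 (-e - a b) (fun h => hea' b
        (by rw [sub_eq_zero] at h; exact h.symm)), add_zero, zero_div, mul_zero, add_zero,
      Finset.sum_eq_single b] at h1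
    · rw [sub_self, hS0, hS1 (-a b - a b) (fun h => hneg b b
        (by rw [sub_eq_zero] at h; exact h.symm)), add_zero, sub_zero] at h1
      have h2 : ((β b : ℂ) - (δ b : ℂ) * Complex.I) * (n : ℂ) / 2 = 0 := by
        rw [← h1]
        field_simp
        have := Complex.I_sq
        linear_combination (-(δ b : ℂ)) * this
      have h3 : (β b : ℂ) - (δ b : ℂ) * Complex.I = 0 := by
        have h4 : ((β b : ℂ) - (δ b : ℂ) * Complex.I) * (n : ℂ) = 0 := by
          linear_combination 2 * h2
        exact (mul_eq_zero.1 h4).resolve_right hn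
      have h5 := congrArg Complex.re h3
      have h6 := congrArg Complex.im h3
      simp at h5 h6
      exact ⟨h5, h6⟩
    · intro b' _ hb'
      rw [hS1 (a b' - a b) (sub_ne_zero.2 fun h => hb' (hinj h)),
        hS1 (-a b' - a b) (fun h => hneg b b' (by rw [sub_eq_zero] at h; exact h.symm))]
      simp
    · intro h; exact absurd (Finset.mem_univ _) h
  have hβ : ∀ b, β b = 0 := fun b => (hβδ b).1
  have hδ : ∀ b, δ b = 0 := fun b => (hβδ b).2
  have hε : ε = 0 := by
    have h1 := key e
    rw [hS1 (-e) (neg_ne_zero.2 he0), sub_self, hS0] at h1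
    simp only [hβ, hδ, Complex.ofReal_zero, zero_mul, mul_zero, add_zero, Finset.sum_const_zero,
      zero_add] at h1
    rcases mul_eq_zero.1 h1 with h2 | h2
    · exact_mod_cast h2
    · exfalso
      rw [hS] at h2
      split_ifs at h2
      · apply hn; linear_combination h2
      · apply hn; linear_combination 2 * h2
  refine ⟨?_, hβ, hδ, hε⟩
  have h1 := h 0
  simp only [hβ, hδ, hε, zero_mul, add_zero, Finset.sum_const_zero] at h1
  exact h1

end Pool.Agent.U34.EQ
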