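import Pool.Agent.U34.EQ.Freq
import Pool.Agent.U34.EQ.Calc
import Pool.Agent.U34.EQ.Colour

/-!
# `k`-equilateral `n`-gons with distinct vertices spanning the space of dimension `2 k - 1`
-/

set_option autoImplicit false

namespace Pool.Agent.U34.EQ

open Finset ZMod Filter Topology Module
open Pool.Agent.Results.MP_fb0157_co.ThreeEquilateralNineGon

/-- the coordinates -/
abbrev Ix (K : ℕ) : Type := Fin K ⊕ Fin K ⊕ Unit

/-- the point with the complex coordinates `y` and the real coordinate `h` -/
noncomputable def pt {K : ℕ} (y : Fin K → ℂ) (h : ℝ) : EuclideanSpace ℝ (Ix K) :=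
  WithLp.toLp 2 (Sum.elim (fun b => (y b).re) (Sum.elim (fun b => (y b).im) fun _ => h))

theorem dist_pt {K : ℕ} (y y' : Fin K → ℂ) (h h' : ℝ) :
    dist (pt y h) (pt y' h') = √(∑ b, ‖y b - y' b‖ ^ 2 + (h - h') ^ 2) := by
  rw [EuclideanSpace.dist_eq]
  congr 1
  simp only [Fintype.sum_sum_type, pt, Sum.elim_inl, Sum.elim_inr, Real.dist_eq, sq_abs,
    Finset.univ_unique, Finset.sum_singleton]
  rw [← add_assoc, ← Finset.sum_add_distrib]
  congr 1
  refine Finset.sum_congr rfl fun b _ => ?_
  rw [← Complex.normSq_eq_norm_sq, Complex.normSq_apply, Complex.sub_re, Complex.sub_im]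
  ring

/-- from coordinates to polygons -/
theorem assemble {n K : ℕ} [NeZero n] (y : Cf n K) (h : ZMod n → ℝ)
    (hd : ∀ j : Fin (K + 1), ∃ c, ∀ i, ∑ b, ‖y i b - y (i + st j) b‖ ^ 2 +
      (h i - h (i + st j)) ^ 2 = c)
    (hi : ∀ (α ε : ℝ) (β δ : Fin K → ℝ), (∀ i : ZMod n, α + ∑ b, (β b * (y i b).re +
      δ b * (y i b).im) + ε * h i = 0) → α = 0 ∧ (∀ b, β b = 0) ∧ (∀ b, δ b = 0) ∧ ε = 0)
    (hinj : Function.Injective y) {m : ℕ} (hm : m = 2 * K + 1) :
    ∃ x : ZMod n → EuclideanSpace ℝ (Fin m), Function.Injective x ∧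
      IsKEquilateral (K + 1) x ∧ Spans x := by
  have hfr : finrank ℝ (EuclideanSpace ℝ (Ix K)) = m := by
    rw [finrank_euclideanSpace, hm]
    simp [Ix]
    ring
  have hspan : affineSpan ℝ (Set.range fun i => pt (y i) (h i)) = ⊤ := by
    apply span_of_dual
    intro a c hac
    have h1 := hi (-c) (a (Sum.inr (Sum.inr ()))) (fun b => a (Sum.inl b))
      (fun b => a (Sum.inr (Sum.inl b))) (by
        intro i
        have h2 := hac i
        rw [PiLp.inner_apply] at h2
        simp only [Fintype.sum_sum_type, pt, Sum.elim_inl, Sum.elim_inr, Finset.univ_unique,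
          Finset.sum_singleton, RCLike.inner_apply, conj_trivial] at h2
        rw [← h2, Finset.sum_add_distrib]
        have e1 : ∑ b, a (Sum.inl b) * (y i b).re = ∑ b, (y i b).re * a (Sum.inl b) :=
          Finset.sum_congr rfl fun b _ => mul_comm _ _
        have e2 : ∑ b, a (Sum.inr (Sum.inl b)) * (y i b).im =
            ∑ b, (y i b).im * a (Sum.inr (Sum.inl b)) :=
          Finset.sum_congr rfl fun b _ => mul_comm _ _
        rw [e1, e2]
        have e3 : (default : Unit) = () := rfl
        rw [e3]
        ring)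
    ext s
    rcases s with b | b | u
    · exact h1.2.1 b
    · exact h1.2.2.1 b
    · exact h1.2.2.2
  obtain ⟨x, hx1, hx2⟩ := transport hfr (fun i => pt (y i) (h i)) hspan
  refine ⟨x, ?_, ?_, hx2⟩
  · intro i i' hii
    have h3 : dist (pt (y i) (h i)) (pt (y i') (h i')) = 0 := by
      rw [← hx1, hii, dist_self]
    rw [dist_pt, Real.sqrt_eq_zero (by positivity)] at h3
    have h4 : ∑ b, ‖y i b - y i' b‖ ^ 2 = 0 := by
      have h5 : 0 ≤ ∑ b, ‖y i b - y i' b‖ ^ 2 := Finset.sum_nonneg fun _ _ => by positivity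
      have h6 : 0 ≤ (h i - h i') ^ 2 := by positivity
      linarith
    apply hinj
    funext b
    have h7 := (Finset.sum_eq_zero_iff_of_nonneg (fun b _ => by positivity)).1 h4 b
      (Finset.mem_univ b)
    have h8 : ‖y i b - y i' b‖ = 0 := by
      exact pow_eq_zero_iff (two_ne_zero) |>.1 h7
    rwa [norm_eq_zero, sub_eq_zero] at h8
  · choose c hc using hd
    refine ⟨fun j => if hj : j - 1 < K + 1 then √(c ⟨j - 1, hj⟩) else 0, fun j hj1 hj2 i => ?_⟩
    have hj : j - 1 < K + 1 := by omega
    show _ = (if hj : j - 1 < K + 1 then √(c ⟨j - 1, hj⟩) else 0)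
    rw [dif_pos hj, hx1, dist_pt]
    congr 1
    have h9 := hc ⟨j - 1, hj⟩ i
    have e : (st (n := n) (⟨j - 1, hj⟩ : Fin (K + 1))) = (j : ZMod n) := by
      unfold st
      congr 1
      simp only
      omega
    rw [e] at h9
    exact h9

theorem norm_ze {n : ℕ} [NeZero n] (x : ZMod n) : ‖ze x‖ = 1 := by
  rw [ze, stdAddChar_apply]
  exact Circle.norm_coe _

theorem ze_add {n : ℕ} [NeZero n] (x y : ZMod n) : ze (x + y) = ze x * ze y :=
  AddChar.map_add_eq_mul _ _ _

theorem ze_zero {n : ℕ} [NeZero n] : ze (0 : ZMod n) = 1 := AddChar.map_zero_eq_one _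

theorem ze_dist {n : ℕ} [NeZero n] (i s a : ZMod n) :
    ‖ze (i * a) - ze ((i + s) * a)‖ = ‖1 - ze (s * a)‖ := by
  rw [add_mul, ze_add]
  have : ze (i * a) - ze (i * a) * ze (s * a) = ze (i * a) * (1 - ze (s * a)) := by ring
  rw [this, norm_mul, norm_ze, one_mul]

/-- even `n` -/
theorem even_case {n K : ℕ} [NeZero n] (hK : 1 ≤ K) (hn : 2 * (K + 1) + 1 < n) (he : Even n) :
    ∃ x : ZMod n → EuclideanSpace ℝ (Fin (2 * (K + 1) - 1)), Function.Injective x ∧
      IsKEquilateral (K + 1) x ∧ Spans x := by
  obtain ⟨e, hne⟩ := he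
  have hcast : ∀ a b : ℕ, a < n → b < n → (a : ZMod n) = (b : ZMod n) → a = b := by
    intro a b ha hb h
    have := (ZMod.natCast_eq_natCast_iff' a b n).1 h
    rwa [Nat.mod_eq_of_lt ha, Nat.mod_eq_of_lt hb] at this
  have hz0 : ∀ a : ℕ, 0 < a → a < n → (a : ZMod n) ≠ 0 := by
    intro a h1 h2 h3
    have := hcast a 0 h2 (by omega) (by rw [h3]; simp)
    omega
  have hee : (e : ZMod n) + (e : ZMod n) = 0 := by
    rw [← Nat.cast_add, ← hne, ZMod.natCast_self]
  have hr : ∀ x : ZMod n, ze (x * (e : ZMod n)) = 1 ∨ ze (x * (e : ZMod n)) = -1 := by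
    intro x
    have : ze (x * (e : ZMod n)) * ze (x * (e : ZMod n)) = 1 := by
      rw [← ze_add, ← mul_add, hee, mul_zero, ze_zero]
    exact mul_self_eq_one_iff.1 this
  refine assemble (fun i (b : Fin K) => ze (i * ((b.val + 1 : ℕ) : ZMod n)))
    (fun i => (ze (i * (e : ZMod n))).re) ?_ ?_ ?_ (by omega)
  · intro j
    refine ⟨∑ b : Fin K, ‖1 - ze (st j * ((b.val + 1 : ℕ) : ZMod n))‖ ^ 2 +
      (1 - (ze (st j * (e : ZMod n))).re) ^ 2, fun i => ?_⟩
    congr 1
    · exact Finset.sum_congr rfl fun b _ => by rw [ze_dist]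
    · rw [add_mul, ze_add]
      rcases hr i with h1 | h1 <;> rw [h1] <;> simp
      ring
  · intro α ε β δ h
    refine indep (fun b : Fin K => ((b.val + 1 : ℕ) : ZMod n)) (e : ZMod n) ?_ ?_ ?_ ?_ ?_ ?_
      α ε β δ h
    · intro b
      exact hz0 _ (by omega) (by have := b.isLt; omega)
    · intro b b' hbb
      have h1 := b.isLt
      have h2 := b'.isLt
      have := hcast _ _ (by omega) (by omega) hbb
      exact Fin.ext (by omega)
    · intro b b' hbb
      rw [eq_neg_iff_add_eq_zero, ← Nat.cast_add] at hbb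
      have h1 := b.isLt
      have h2 := b'.isLt
      exact hz0 _ (by omega) (by omega) hbb
    · exact hz0 _ (by omega) (by omega)
    · intro b hb
      have h1 := b.isLt
      have := hcast _ _ (by omega) (by omega) hb
      omega
    · intro b hb
      have h1 := b.isLt
      rw [eq_neg_iff_add_eq_zero, ← Nat.cast_add] at hb
      exact hz0 _ (by omega) (by omega) hb
  · intro i i' hii
    have h1 := congrFun hii ⟨0, by omega⟩
    simp only [zero_add, Nat.cast_one, mul_one] at h1
    exact injective_stdAddChar h1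

/-- the family of functions whose independence means that the polygon spans -/
noncomputable def fam {n K : ℕ} (h : ZMod n → ℝ) (y : Cf n K) : Option (Ix K) → ZMod n → ℝ
  | none => fun _ => 1
  | some (Sum.inl b) => fun i => (y i b).re
  | some (Sum.inr (Sum.inl b)) => fun i => (y i b).im
  | some (Sum.inr (Sum.inr _)) => h

theorem fam_continuous {n K : ℕ} (h : ZMod n → ℝ) : Continuous (fam (K := K) h) := by
  rw [continuous_pi_iff]
  intro s
  rcases s with _ | b | b | u
  · exact continuous_const
  · refine continuous_pi fun i => ?_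
    exact Complex.continuous_re.comp ((continuous_apply b).comp (continuous_apply i))
  · refine continuous_pi fun i => ?_
    exact Complex.continuous_im.comp ((continuous_apply b).comp (continuous_apply i))
  · exact continuous_const

theorem fam_indep {n K : ℕ} (h : ZMod n → ℝ) (y : Cf n K) :
    LinearIndependent ℝ (fam h y) ↔ ∀ (α ε : ℝ) (β δ : Fin K → ℝ),
      (∀ i : ZMod n, α + ∑ b, (β b * (y i b).re + δ b * (y i b).im) + ε * h i = 0) →
        α = 0 ∧ (∀ b, β b = 0) ∧ (∀ b, δ b = 0) ∧ ε = 0 := by
  rw [Fintype.linearIndependent_iff]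
  constructor
  · intro H α ε β δ hz
    have h1 := H (fun s => s.elim α (Sum.elim β (Sum.elim δ fun _ => ε))) (by
      funext i
      rw [Pi.zero_apply, ← hz i]
      simp only [Fintype.sum_option, Fintype.sum_sum_type, Pi.add_apply, Finset.sum_apply,
        Pi.smul_apply, smul_eq_mul, fam, Option.elim, Sum.elim_inl, Sum.elim_inr,
        Finset.sum_add_distrib, Finset.univ_unique, Finset.sum_singleton, mul_one]
      ring)
    exact ⟨h1 none, fun b => h1 (some (Sum.inl b)), fun b => h1 (some (Sum.inr (Sum.inl b))),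
      h1 (some (Sum.inr (Sum.inr ())))⟩
  · intro H g hg
    have h1 := H (g none) (g (some (Sum.inr (Sum.inr ())))) (fun b => g (some (Sum.inl b)))
      (fun b => g (some (Sum.inr (Sum.inl b)))) (by
        intro i
        have h2 := congrFun hg i
        simp only [Fintype.sum_option, Fintype.sum_sum_type, Pi.add_apply, Finset.sum_apply,
          Pi.smul_apply, smul_eq_mul, fam, Finset.univ_unique, Finset.sum_singleton,
          mul_one, Pi.zero_apply] at h2
        rw [Finset.sum_add_distrib, ← h2]
        have e3 : (default : Unit) = () := rfl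
        rw [e3]
        ring)
    intro s
    rcases s with _ | b | b | u
    · exact h1.1
    · exact h1.2.1 b
    · exact h1.2.2.1 b
    · exact h1.2.2.2

/-- odd `n` -/
theorem odd_case {t K : ℕ} (ht : 2 ≤ t) (hK : 2 ≤ K) {n : ℕ} [NeZero n]
    (hn : n = 2 * t + 2 * K + 1) :
    ∃ x : ZMod n → EuclideanSpace ℝ (Fin (2 * (K + 1) - 1)), Function.Injective x ∧
      IsKEquilateral (K + 1) x ∧ Spans x := by
  have hcast : ∀ a b : ℕ, a < n → b < n → (a : ZMod n) = (b : ZMod n) → a = b := by
    intro a b ha hb h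
    have := (ZMod.natCast_eq_natCast_iff' a b n).1 h
    rwa [Nat.mod_eq_of_lt ha, Nat.mod_eq_of_lt hb] at this
  have hz0 : ∀ a : ℕ, 0 < a → a < n → (a : ZMod n) ≠ 0 := by
    intro a h1 h2 h3
    have := hcast a 0 h2 (by omega) (by rw [h3]; simp)
    omega
  let γ : Cf n K := fun i b => ze (i * freq t n b)
  let h₀ : ZMod n → ℝ := fun i => (ze (i * 1)).re
  -- independence at the base point
  have hind : LinearIndependent ℝ (fam h₀ γ) := by
    rw [fam_indep]
    intro α ε β δ h
    refine indep (freq t n) 1 ?_ ?_ ?_ ?_ ?_ ?_ α ε β δ h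
    · intro b
      exact hz0 _ (by omega) (by have := b.isLt; omega)
    · intro b b' hbb
      have h1 := b.isLt
      have h2 := b'.isLt
      have := hcast _ _ (by omega) (by omega) hbb
      exact Fin.ext (by omega)
    · intro b b' hbb
      unfold freq at hbb
      rw [eq_neg_iff_add_eq_zero, ← Nat.cast_add] at hbb
      have h1 := b.isLt
      have h2 := b'.isLt
      exact hz0 _ (by omega) (by omega) hbb
    · have := hz0 1 (by omega) (by omega)
      simpa using this
    · intro b hb
      have h1 := b.isLt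
      have := hcast (t + 1 + b.val) 1 (by omega) (by omega) (by simpa [freq] using hb)
      omega
    · intro b hb
      have h1 := b.isLt
      have h2 : ((t + 1 + b.val + 1 : ℕ) : ZMod n) = 0 := by
        rw [Nat.cast_add (t + 1 + b.val) 1, Nat.cast_one]
        exact eq_neg_iff_add_eq_zero.1 hb
      exact hz0 _ (by omega) (by omega) h2
  have hγinj : Function.Injective γ := by
    intro i i' hii
    have h1 := injective_stdAddChar (congrFun hii ⟨0, by omega⟩)
    have h2 := injective_stdAddChar (congrFun hii ⟨1, by omega⟩)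
    simp only [freq] at h1 h2
    push_cast at h1 h2
    linear_combination h2 - h1
  -- the open set
  let U : Set (Cf n K) := {y | LinearIndependent ℝ (fam h₀ y)} ∩ {y | Function.Injective y}
  have hU : U ∈ 𝓝 γ := by
    refine Filter.inter_mem ?_ ?_
    · have h1 : IsOpen {f : Option (Ix K) → ZMod n → ℝ | LinearIndependent ℝ f} :=
        isOpen_setOfPred_linearIndependent
      exact (h1.preimage (fam_continuous h₀)).mem_nhds hind
    · have h1 : IsOpen {y : Cf n K | Function.Injective y} := by
        have : {y : Cf n K | Function.Injective y} =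
            ⋂ (i : ZMod n) (i' : ZMod n), {y | i ≠ i' → y i ≠ y i'} := by
          ext y
          simp only [Set.mem_ofPred_eq, Set.mem_iInter]
          constructor
          · intro h i i' hii hy; exact hii (h hy)
          · intro h i i' hy
            by_contra hii
            exact h i i' hii hy
        rw [this]
        refine isOpen_iInter_of_finite fun i => isOpen_iInter_of_finite fun i' => ?_
        by_cases hii : i = i'
        · have : {y : Cf n K | i ≠ i' → y i ≠ y i'} = Set.univ := by
            ext y; simp [hii]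
          rw [this]; exact isOpen_univ
        · have : {y : Cf n K | i ≠ i' → y i ≠ y i'} = {y | y i ≠ y i'} := by
            ext y; simp [hii]
          rw [this]
          exact isOpen_ne_fun (continuous_apply i) (continuous_apply i')
      exact h1.mem_nhds hγinj
  -- the stresses
  have hstress : ∀ w : ZMod n → Fin (K + 1) → ℝ, (∀ j, ∑ i, w i j = 0) →
      (∀ i b, ∑ j : Fin (K + 1), (w i j • (γ i b - γ (i + st j) b) +
        w (i - st j) j • (γ i b - γ (i - st j) b)) = 0) → w = 0 := by
    intro w hw0 hw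
    have h1 : (fun i j => ((w i j : ℝ) : ℂ)) = (0 : ZMod n → Fin (K + 1) → ℂ) := by
      refine stress_zero (k := K + 1) (fset t K n) (neg_mem_fset hn) (card_union hn ht hK) _ ?_ ?_
      · intro j
        rw [← Complex.ofReal_sum, hw0, Complex.ofReal_zero]
      · have hbr : ∀ (b : Fin K) (i : ZMod n), ∑ j : Fin (K + 1),
            ((w i j : ℂ) * (1 - ze (freq t n b * st j)) +
            (w (i - st j) j : ℂ) * (1 - ze (-(freq t n b * st j)))) = 0 := by
          intro b i
          have h2 := hw i b
          have h3 : ∑ j : Fin (K + 1), (w i j • (γ i b - γ (i + st j) b) +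
              w (i - st j) j • (γ i b - γ (i - st j) b)) = ze (i * freq t n b) *
              ∑ j : Fin (K + 1), ((w i j : ℂ) * (1 - ze (freq t n b * st j)) +
              (w (i - st j) j : ℂ) * (1 - ze (-(freq t n b * st j)))) := by
            rw [Finset.mul_sum]
            refine Finset.sum_congr rfl fun j _ => ?_
            have e1 : γ (i + st j) b = ze (i * freq t n b) * ze (freq t n b * st j) := by
              simp only [γ]; rw [← ze_add]; congr 1; ring
            have e2 : γ (i - st j) b = ze (i * freq t n b) * ze (-(freq t n b * st j)) := by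
              simp only [γ]; rw [← ze_add]; congr 1; ring
            rw [e1, e2, Complex.real_smul, Complex.real_smul]
            simp only [γ]
            ring
          rw [h3] at h2
          refine (mul_eq_zero.1 h2).resolve_left ?_
          intro h4
          have := norm_ze (i * freq t n b)
          rw [h4, norm_zero] at this
          exact zero_ne_one this
        intro c hc i
        rcases fset_cases hn c hc with rfl | ⟨b, rfl | rfl⟩
        · refine Finset.sum_eq_zero fun j _ => ?_
          simp only [zero_mul, neg_zero, ze_zero, sub_self, mul_zero, add_zero]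
        · exact hbr b i
        · have h5 := congrArg (starRingEnd ℂ) (hbr b i)
          rw [map_sum, map_zero] at h5
          rw [← h5]
          refine Finset.sum_congr rfl fun j _ => ?_
          have hconj : ∀ x : ZMod n, (starRingEnd ℂ) (ze x) = ze (-x) := by
            intro x
            rw [ze, ze, ← AddChar.map_neg_eq_conj]
          simp only [map_add, map_mul, map_sub, map_one, Complex.conj_ofReal, hconj, neg_neg,
            neg_mul]
    funext i j
    have := congrFun (congrFun h1 i) j
    exact Complex.ofReal_eq_zero.1 this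
  -- the perturbation
  have hc : ∀ i (j : Fin (K + 1)), ∑ b, ‖γ i b - γ (i + st j) b‖ ^ 2 =
      ∑ b : Fin K, ‖1 - ze (st j * freq t n b)‖ ^ 2 := by
    intro i j
    exact Finset.sum_congr rfl fun b _ => by simp only [γ]; rw [ze_dist]
  have hper := perturb (k := K + 1) γ (fun j => ∑ b : Fin K, ‖1 - ze (st j * freq t n b)‖ ^ 2)
    (fun i j => hc i j) hstress U hU
  have hlim : Tendsto (fun ε : ℝ => fun (i : ZMod n) (j : Fin (K + 1)) =>
      -(ε * h₀ i - ε * h₀ (i + st j)) ^ 2) (𝓝 0) (𝓝 0) := by
    have h1 : Continuous (fun ε : ℝ => fun (i : ZMod n) (j : Fin (K + 1)) =>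
        -(ε * h₀ i - ε * h₀ (i + st j)) ^ 2) := by
      refine continuous_pi fun i => continuous_pi fun j => ?_
      fun_prop
    convert h1.tendsto 0 using 2
    funext i j
    simp
  have hev := (hlim.eventually hper)
  obtain ⟨ε, hε, hε0⟩ : ∃ ε : ℝ, (∃ y ∈ U, ∃ c : Fin (K + 1) → ℝ,
      ∀ i (j : Fin (K + 1)), ∑ b, ‖y i b - y (i + st j) b‖ ^ 2 - c j =
        -(ε * h₀ i - ε * h₀ (i + st j)) ^ 2) ∧ ε ≠ 0 := by
    have h1 : ∀ᶠ ε : ℝ in 𝓝[≠] 0, (∃ y ∈ U, ∃ c : Fin (K + 1) → ℝ,
      ∀ i (j : Fin (K + 1)), ∑ b, ‖y i b - y (i + st j) b‖ ^ 2 - c j =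
        -(ε * h₀ i - ε * h₀ (i + st j)) ^ 2) := nhdsWithin_le_nhds hev
    have h2 : ∀ᶠ ε : ℝ in 𝓝[≠] 0, ε ≠ 0 := eventually_mem_nhdsWithin
    exact (h1.and h2).exists
  obtain ⟨y, hyU, c, hyc⟩ := hε
  refine assemble y (fun i => ε * h₀ i) ?_ ?_ hyU.2 (by omega)
  · intro j
    exact ⟨c j, fun i => by have := hyc i j; linarith⟩
  · intro α ε' β δ h
    have h1 := (fam_indep h₀ y).1 hyU.1 α (ε' * ε) β δ (by
      intro i
      rw [← h i]; ring)
    exact ⟨h1.1, h1.2.1, h1.2.2.1, (mul_eq_zero.1 h1.2.2.2).resolve_right hε0⟩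

end Pool.Agent.U34.EQ
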