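import Mathlib

/-!
# Colourings of powers of cycles and polygons with vertices in a regular simplex
-/

set_option autoImplicit false

namespace Pool.Agent.U34.EQ

open Module

/-- transport of a configuration of points to the standard Euclidean space -/
theorem transport {ι W : Type*} [NormedAddCommGroup W] [InnerProductSpace ℝ W]
    [FiniteDimensional ℝ W] {m : ℕ} (hm : finrank ℝ W = m) (x : ι → W)
    (hx : affineSpan ℝ (Set.range x) = ⊤) :
    ∃ y : ι → EuclideanSpace ℝ (Fin m), (∀ i j, dist (y i) (y j) = dist (x i) (x j)) ∧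
      affineSpan ℝ (Set.range y) = ⊤ := by
  subst hm
  let e := (stdOrthonormalBasis ℝ W).repr
  refine ⟨fun i => e (x i), fun i j => e.dist_map _ _, ?_⟩
  have h1 : Set.range (fun i => e (x i)) =
      e.toLinearEquiv.toAffineEquiv.toAffineMap '' Set.range x := by
    rw [← Set.range_comp]; rfl
  rw [h1]
  exact AffineMap.span_eq_top_of_surjective _ e.surjective hx

/-- a criterion for the affine span -/
theorem span_of_dual {ι W : Type*} [Nonempty ι] [NormedAddCommGroup W] [InnerProductSpace ℝ W]
    [FiniteDimensional ℝ W] (x : ι → W)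
    (hx : ∀ (a : W) (c : ℝ), (∀ i, inner ℝ a (x i) = c) → a = 0) :
    affineSpan ℝ (Set.range x) = ⊤ := by
  rw [AffineSubspace.affineSpan_eq_top_iff_vectorSpan_eq_top_of_nonempty ℝ W W
    (Set.range_nonempty x)]
  rw [← Submodule.orthogonal_eq_bot_iff, eq_bot_iff]
  intro a ha
  obtain ⟨i₀⟩ := ‹Nonempty ι›
  refine hx a (inner ℝ a (x i₀)) fun i => ?_
  have h1 : x i - x i₀ ∈ vectorSpan ℝ (Set.range x) :=
    vsub_mem_vectorSpan ℝ ⟨i, rfl⟩ ⟨i₀, rfl⟩
  have h2 := (Submodule.mem_orthogonal' _ a).1 ha _ h1
  rw [inner_sub_right] at h2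
  linarith

/-- the colouring `p ↦ ⌊(p q mod n) / q⌋` of the cycle of length `n`: vertices at distance at most
`k` have different colours. -/
theorem color_ne {n q k p j : ℕ} (hq : 0 < q) (hn : q * (k + 1) ≤ n) (hj : 1 ≤ j) (hjk : j ≤ k) :
    (p * q % n) / q ≠ ((p + j) * q % n) / q := by
  intro h
  have hn0 : 0 < n := lt_of_lt_of_le (by positivity) hn
  set a := p * q % n with ha
  set b := (p + j) * q % n with hb
  have ha1 : a < n := Nat.mod_lt _ hn0
  have hb1 : b < n := Nat.mod_lt _ hn0
  have e1 : a / q * q ≤ a := Nat.div_mul_le_self _ _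
  have e2 : a < a / q * q + q := by
    have := Nat.lt_div_mul_add hq (a := a); simpa using this
  have e3 : b / q * q ≤ b := Nat.div_mul_le_self _ _
  have e4 : b < b / q * q + q := by
    have := Nat.lt_div_mul_add hq (a := b); simpa using this
  rw [← h] at e3 e4
  have hjq1 : q ≤ j * q := Nat.le_mul_of_pos_left _ hj
  have hjq2 : j * q + q ≤ n := by
    calc j * q + q = q * (j + 1) := by ring
      _ ≤ q * (k + 1) := by gcongr
      _ ≤ n := hn
  have hmod : b ≡ a + j * q [MOD n] := by
    have h1 : b ≡ (p + j) * q [MOD n] := Nat.mod_modEq _ _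
    have h2 : a ≡ p * q [MOD n] := Nat.mod_modEq _ _
    calc b ≡ (p + j) * q [MOD n] := h1
      _ = p * q + j * q := by ring
      _ ≡ a + j * q [MOD n] := (h2.symm.add_right _)
  have hb2 : b = (a + j * q) % n := by
    have := hmod
    unfold Nat.ModEq at this
    rwa [Nat.mod_eq_of_lt hb1] at this
  rcases lt_or_ge (a + j * q) n with hlt | hge
  · rw [Nat.mod_eq_of_lt hlt] at hb2
    omega
  · have : (a + j * q) % n = a + j * q - n := by
      rw [Nat.mod_eq_sub_mod hge, Nat.mod_eq_of_lt (by omega)]
    rw [this] at hb2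
    omega

/-- a map to a set with `M` elements can be refined to a surjective map onto a set with `m ≥ M`
elements, if the source has at least `m` elements. -/
theorem refine_surj {α : Type*} [Fintype α] {m : ℕ} (f : α → Fin m)
    (hm : m ≤ Fintype.card α) :
    ∃ g : α → Fin m, Function.Surjective g ∧ ∀ x y, g x = g y → f x = f y := by
  classical
  -- representatives
  rcases isEmpty_or_nonempty α with hα | hα
  · have : m = 0 := by simpa using hm
    subst this
    exact ⟨f, fun c => c.elim0, fun x => (hα.false x).elim⟩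
  let rep : Fin m → α := fun c => if h : ∃ a, f a = c then h.choose else Classical.arbitrary α
  have hrep : ∀ a, f (rep (f a)) = f a := by
    intro a
    have h : ∃ b, f b = f a := ⟨a, rfl⟩
    simp only [rep, dif_pos h]
    exact h.choose_spec
  let S0 : Finset α := Finset.univ.image fun a => rep (f a)
  have hS0 : S0.card ≤ m := by
    have : S0 ⊆ Finset.univ.image rep := by
      intro a ha
      simp only [S0, Finset.mem_image, Finset.mem_univ, true_and] at ha ⊢
      obtain ⟨b, hb⟩ := ha
      exact ⟨f b, hb⟩
    calc S0.card ≤ _ := Finset.card_le_card this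
      _ ≤ (Finset.univ : Finset (Fin m)).card := Finset.card_image_le
      _ = m := by simp
  obtain ⟨S, hS1, -, hS3⟩ := Finset.exists_subsuperset_card_eq (Finset.subset_univ S0) hS0
    (by simpa using hm)
  let e : S ≃ Fin m := Finset.equivFinOfCardEq hS3
  have hmem : ∀ a, rep (f a) ∈ S := fun a => hS1 (by simp [S0])
  let g : α → Fin m := fun a => if h : a ∈ S then e ⟨a, h⟩ else e ⟨rep (f a), hmem a⟩
  refine ⟨g, fun c => ⟨e.symm c, ?_⟩, ?_⟩
  · simp [g]
  · intro x y hxy
    simp only [g] at hxy
    split_ifs at hxy with h1 h2 h2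
    · have := e.injective hxy
      simp only [Subtype.mk.injEq] at this
      rw [this]
    · have := e.injective hxy
      simp only [Subtype.mk.injEq] at this
      rw [this, hrep]
    · have := e.injective hxy
      simp only [Subtype.mk.injEq] at this
      rw [← this, hrep]
    · have := e.injective hxy
      simp only [Subtype.mk.injEq] at this
      rw [← hrep x, this, hrep]

/-- the vertices of a regular simplex in the Euclidean space of dimension `d` -/
theorem exists_simplex (d : ℕ) : ∃ v : Fin (d + 1) → EuclideanSpace ℝ (Fin d),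
    (∀ a b, a ≠ b → dist (v a) (v b) = √2) ∧ affineSpan ℝ (Set.range v) = ⊤ := by
  classical
  let s : Fin (d + 1) → EuclideanSpace ℝ (Fin (d + 1)) := fun a => EuclideanSpace.single a 1
  let u : EuclideanSpace ℝ (Fin (d + 1)) := WithLp.toLp 2 fun _ => (1 : ℝ)
  have hus : ∀ a, inner ℝ u (s a) = (1 : ℝ) := by
    intro a
    simp only [s]
    rw [EuclideanSpace.inner_single_right]
    simp [u]
  have hss : ∀ (z : EuclideanSpace ℝ (Fin (d + 1))) a, inner ℝ z (s a) = z a := by
    intro z a
    simp only [s]
    rw [EuclideanSpace.inner_single_right]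
    simp
  have hu : u ≠ 0 := by
    intro h
    have := hus 0
    rw [h, inner_zero_left] at this
    exact zero_ne_one this
  have hfr : finrank ℝ (EuclideanSpace ℝ (Fin (d + 1))) = d + 1 := by simp
  have : Fact (finrank ℝ (EuclideanSpace ℝ (Fin (d + 1))) = d + 1) := ⟨hfr⟩
  have hW : finrank ℝ (ℝ ∙ u)ᗮ = d := Submodule.finrank_orthogonal_span_singleton hu
  have hmem : ∀ a : Fin (d + 1), s a - s 0 ∈ (ℝ ∙ u)ᗮ := by
    intro a
    rw [Submodule.mem_orthogonal_singleton_iff_inner_right, inner_sub_right, hus, hus, sub_self]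
  let x : Fin (d + 1) → (ℝ ∙ u)ᗮ := fun a => ⟨s a - s 0, hmem a⟩
  have haff : affineSpan ℝ (Set.range x) = ⊤ := by
    apply span_of_dual
    rintro ⟨z, hz⟩ c hc
    have h1 : ∀ a, z a - z 0 = c := by
      intro a
      have := hc a
      rw [Submodule.coe_inner] at this
      simp only [x, inner_sub_right, hss] at this
      exact this
    have hc0 : c = 0 := by rw [← h1 0, sub_self]
    have h2 : ∀ a, z a = z 0 := fun a => by have := h1 a; rw [hc0] at this; linarith
    have hz2 : z = z 0 • u := by
      ext a
      rw [h2 a]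
      simp [u]
    rw [Submodule.mem_orthogonal_singleton_iff_inner_right, real_inner_comm] at hz
    have h3 : z 0 = 0 := by
      have h4 : inner ℝ (z 0 • u) u = (0 : ℝ) := by rw [← hz2]; exact hz
      rw [real_inner_smul_left] at h4
      rcases mul_eq_zero.1 h4 with h | h
      · exact h
      · exact absurd (inner_self_eq_zero.1 h) hu
    apply Subtype.ext
    show z = 0
    rw [hz2, h3, zero_smul]
  obtain ⟨y, hy1, hy2⟩ := transport hW x haff
  refine ⟨y, fun a b hab => ?_, hy2⟩
  rw [hy1, Subtype.dist_eq, dist_eq_norm]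
  simp only [x]
  rw [sub_sub_sub_cancel_right, @norm_eq_sqrt_real_inner]
  congr 1
  rw [inner_sub_left, inner_sub_right, inner_sub_right, hss, hss, hss, hss]
  simp only [s]
  simp [hab, hab.symm, Ne.symm hab]
  norm_num

end Pool.Agent.U34.EQ
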